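import Mathlib

/-!
# Modules over the ring of differential operators of `k[x]` (definitions)

The case `n = 1` (one variable) of the ring of differential operators of a polynomial ring over a
field `k` of arbitrary characteristic, its Bernstein filtration and holonomic modules.
-/

set_option autoImplicit false

namespace Pool.Agent.X329.Dmod

open Polynomial

/-- The ring `𝒟` of the `k`-linear differential operators of `k[x]`: the subalgebra of `End_k k[x]`
generated by the multiplications by polynomials and the operators `D_t`, `t ≥ 0`, with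
`D_t x ^ v = (v choose t) x ^ (v - t)` (`Polynomial.hasseDeriv`). -/
noncomputable def diffOps (k : Type*) [Field k] : Subalgebra k (Module.End k k[X]) :=
  Algebra.adjoin k (Set.range (fun g : k[X] => LinearMap.mulLeft k g) ∪
    Set.range (fun t : ℕ => hasseDeriv t))

/-- The ring `𝒟`, with its structure of a `k`-algebra. -/
def DOp (k : Type*) [Field k] : Type _ := diffOps k

noncomputable def DOp.ring (k : Type*) [Field k] : Ring (DOp k) := (diffOps k).toRing

noncomputable instance (k : Type*) [Field k] : Ring (DOp k) := DOp.ring k

noncomputable instance (k : Type*) [Field k] : Algebra k (DOp k) := (diffOps k).algebra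

/-- The operator given by an element of `𝒟`. -/
def DOp.op {k : Type*} [Field k] (θ : DOp k) : Module.End k k[X] := Subtype.val (p := (· ∈ diffOps k)) θ

/-- The Bernstein filtration: `F_s` is the `k`-span of the operators `x ^ a D_t` with
`a + t ≤ s`. -/
noncomputable def bern (k : Type*) [Field k] (s : ℕ) : Submodule k (DOp k) :=
  Submodule.span k {θ | ∃ a t : ℕ, a + t ≤ s ∧
    θ.op = LinearMap.mulLeft k (X ^ a) * hasseDeriv t}

section
variable (k : Type*) [Field k] {M : Type*} [AddCommGroup M] [Module k M] [Module (DOp k) M]
  [IsScalarTower k (DOp k) M]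

/-- `G_0 ⊆ G_1 ⊆ ...` is a `k`-filtration of the left `𝒟`-module `M`. -/
structure IsFiltration (G : ℕ → Submodule k M) : Prop where
  mono : Monotone G
  exhaust : ∀ m, ∃ i, m ∈ G i
  smul_mem : ∀ i j, ∀ θ ∈ bern k i, ∀ m ∈ G j, θ • m ∈ G (i + j)

variable (M)

/-- The left `𝒟`-module `M` is holonomic: it has a `k`-filtration with `dim_k M_i ≤ C i` for all
`i ≥ 1`. -/
def IsHolonomic : Prop :=
  ∃ G : ℕ → Submodule k M, IsFiltration k G ∧
    ∃ C : ℕ, ∀ i, 1 ≤ i → Module.rank k (G i) ≤ ((C * i : ℕ) : Cardinal)

variable {M}

/-- The subspace `F_i M_0` of `M`, where `M_0` is the `k`-span of the set `S`. -/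
noncomputable def stage (S : Set M) (i : ℕ) : Submodule k M :=
  Submodule.span k {x | ∃ θ ∈ bern k i, ∃ m ∈ S, x = θ • m}

end

end Pool.Agent.X329.Dmod
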