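import Mathlib
import Pool.Agent.X329.Dmod.Defs

/-!
# Extensions of `k[x]` by `k[x]` given by lacunary power series
-/

set_option autoImplicit false

namespace Pool.Agent.X329.Dmod

open Polynomial

variable {k : Type*} [Field k]

/-- The structure of a left `𝒟`-module on `k[x]`. -/
noncomputable instance : Module (DOp k) k[X] where
  smul θ g := θ.op g
  one_smul _ := rfl
  mul_smul _ _ _ := rfl
  smul_zero θ := map_zero θ.op
  smul_add θ := map_add θ.op
  add_smul _ _ _ := rfl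
  zero_smul _ := rfl

noncomputable instance : IsScalarTower k (DOp k) k[X] where
  smul_assoc _ _ _ := rfl

theorem smul_apply (θ : DOp k) (g : k[X]) : θ • g = θ.op g := rfl

/-- The multiplication by `u` as an element of `𝒟`. -/
noncomputable def mulOp (u : k[X]) : DOp k :=
  ⟨LinearMap.mulLeft k u, Algebra.subset_adjoin (Or.inl ⟨u, rfl⟩)⟩

/-- The operator `D_t` as an element of `𝒟`. -/
noncomputable def dOp (k : Type*) [Field k] (t : ℕ) : DOp k :=
  ⟨hasseDeriv t, Algebra.subset_adjoin (Or.inr ⟨t, rfl⟩)⟩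

/-- The sequences which are eventually zero. -/
def evt (k : Type*) [Field k] : Submodule (DOp k) (ℕ → k[X]) where
  carrier := {u | ∃ N₀, ∀ N ≥ N₀, u N = 0}
  zero_mem' := ⟨0, fun _ _ => rfl⟩
  add_mem' := by
    rintro u v ⟨N₀, h⟩ ⟨N₁, h'⟩
    refine ⟨max N₀ N₁, fun N hN => ?_⟩
    rw [Pi.add_apply, h N (le_trans (le_max_left _ _) hN), h' N (le_trans (le_max_right _ _) hN),
      add_zero]
  smul_mem' := by
    rintro θ u ⟨N₀, h⟩
    refine ⟨N₀, fun N hN => ?_⟩
    rw [Pi.smul_apply, h N hN, smul_zero]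

/-- Sequences of polynomials up to equality of almost all terms. -/
abbrev QQ (k : Type*) [Field k] : Type _ := (ℕ → k[X]) ⧸ evt k

/-- A sequence `f` of polynomials such that the derivatives `D_t f_N`, `t ≥ 1`, do not depend on `N`
for large `N`. -/
structure Adm (f : ℕ → k[X]) (c : ℕ → k[X]) : Prop where
  deriv : ∀ t, 1 ≤ t → ∀ N, t ≤ N → hasseDeriv t (f N) = c t
  diff : ∀ N, f (N + 1) ≠ f N

theorem smul_mul {f c : ℕ → k[X]} (hf : Adm f c) (θ : DOp k) (h : k[X]) :
    ∃ g : k[X], ∃ N₀, ∀ N ≥ N₀, θ • (h * f N) = g + (θ • h) * f N := by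
  obtain ⟨θ, hθ⟩ := θ
  revert h
  change ∀ h : k[X], ∃ g : k[X], ∃ N₀, ∀ N ≥ N₀, θ (h * f N) = g + (θ h) * f N
  induction hθ using Algebra.adjoin_induction with
  | mem x hx =>
    intro h
    rcases hx with ⟨u, rfl⟩ | ⟨t, rfl⟩
    · exact ⟨0, 0, fun N _ => by simp [mul_assoc]⟩
    · refine ⟨∑ ij ∈ Finset.HasAntidiagonal.antidiagonal t, if ij.2 = 0 then 0 else hasseDeriv ij.1 h * c ij.2, t,
        fun N hN => ?_⟩
      have h1 : hasseDeriv t (h * f N) =
          ∑ ij ∈ Finset.HasAntidiagonal.antidiagonal t, ((if ij.2 = 0 then 0 else hasseDeriv ij.1 h * c ij.2) +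
            (if ij.2 = 0 then hasseDeriv ij.1 h * f N else 0)) := by
        rw [hasseDeriv_mul]
        refine Finset.sum_congr rfl fun ij hij => ?_
        have hij := Finset.HasAntidiagonal.mem_antidiagonal.1 hij
        by_cases h0 : ij.2 = 0
        · rw [if_pos h0, if_pos h0, h0, hasseDeriv_zero, LinearMap.id_apply, zero_add]
        · rw [if_neg h0, if_neg h0, add_zero, hf.deriv ij.2 (by omega) N (by omega)]
      change hasseDeriv t (h * f N) = _
      rw [h1, Finset.sum_add_distrib]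
      congr 1
      rw [Finset.sum_eq_single (t, 0)]
      · simp
      · intro ij hij hne
        have hij := Finset.HasAntidiagonal.mem_antidiagonal.1 hij
        rw [if_neg]
        intro h0
        apply hne
        ext
        · simpa [h0] using hij
        · exact h0
      · intro hne
        exact absurd (Finset.HasAntidiagonal.mem_antidiagonal.2 (add_zero t)) hne
  | algebraMap r =>
    intro h
    exact ⟨0, 0, fun N _ => by simp [Algebra.algebraMap_eq_smul_one]⟩
  | add x y hx hy ihx ihy =>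
    intro h
    obtain ⟨g, N₀, h1⟩ := ihx h
    obtain ⟨g', N₁, h2⟩ := ihy h
    refine ⟨g + g', max N₀ N₁, fun N hN => ?_⟩
    rw [LinearMap.add_apply, LinearMap.add_apply, h1 N (le_trans (le_max_left _ _) hN),
      h2 N (le_trans (le_max_right _ _) hN)]
    ring
  | mul x y hx hy ihx ihy =>
    intro h
    obtain ⟨g, N₀, h1⟩ := ihy h
    obtain ⟨g', N₁, h2⟩ := ihx (y h)
    refine ⟨x g + g', max N₀ N₁, fun N hN => ?_⟩
    rw [Module.End.mul_apply, Module.End.mul_apply, h1 N (le_trans (le_max_left _ _) hN), map_add,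
      h2 N (le_trans (le_max_right _ _) hN)]
    ring

/-- The class of the sequence `g + h f_N`. -/
noncomputable def el (f : ℕ → k[X]) (g h : k[X]) : QQ k := Submodule.Quotient.mk fun N => g + h * f N

theorem el_add (f : ℕ → k[X]) (g h g' h' : k[X]) :
    el f g h + el f g' h' = el f (g + g') (h + h') := by
  rw [el, el, el, ← Submodule.Quotient.mk_add]
  congr 1
  funext N
  rw [Pi.add_apply]
  ring

theorem el_smul (f : ℕ → k[X]) (r : k) (g h : k[X]) :
    r • el f g h = el f (r • g) (r • h) := by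
  rw [el, el, ← Submodule.Quotient.mk_smul]
  congr 1
  funext N
  rw [Pi.smul_apply, smul_add, smul_mul_assoc]

theorem smul_el {f c : ℕ → k[X]} (hf : Adm f c) (θ : DOp k) (g h : k[X]) :
    ∃ g', θ • el f g h = el f g' (θ • h) := by
  obtain ⟨g', N₀, h1⟩ := smul_mul hf θ h
  refine ⟨θ • g + g', ?_⟩
  rw [el, el, ← Submodule.Quotient.mk_smul, Submodule.Quotient.eq]
  refine ⟨N₀, fun N hN => ?_⟩
  rw [Pi.sub_apply, Pi.smul_apply, smul_add, h1 N hN]
  ring

theorem smul_el_zero (f : ℕ → k[X]) (θ : DOp k) (g : k[X]) :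
    θ • el f g 0 = el f (θ • g) 0 := by
  rw [el, el, ← Submodule.Quotient.mk_smul]
  congr 1
  funext N
  rw [Pi.smul_apply, zero_mul, add_zero, add_zero]

theorem mulOp_el (f : ℕ → k[X]) (u g h : k[X]) :
    mulOp u • el f g h = el f (u * g) (u * h) := by
  rw [el, el, ← Submodule.Quotient.mk_smul]
  congr 1
  funext N
  change u * (g + h * f N) = u * g + u * h * f N
  ring

theorem dOp_el {f c : ℕ → k[X]} (hf : Adm f c) (t : ℕ) (ht : 1 ≤ t) :
    dOp k t • el f 0 1 = el f (c t) 0 := by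
  rw [el, el, ← Submodule.Quotient.mk_smul, Submodule.Quotient.eq]
  refine ⟨t, fun N hN => ?_⟩
  change hasseDeriv t (0 + 1 * f N) - (c t + 0 * f N) = 0
  rw [zero_add, one_mul, hf.deriv t ht N hN, zero_mul, add_zero, sub_self]

theorem el_eq_zero {f c : ℕ → k[X]} (hf : Adm f c) {g h : k[X]} (h0 : el f g h = 0) :
    g = 0 ∧ h = 0 := by
  rw [el, Submodule.Quotient.mk_eq_zero] at h0
  obtain ⟨N₀, hN⟩ := h0
  have h1 : g + h * f N₀ = 0 := hN N₀ le_rfl
  have h2 : g + h * f (N₀ + 1) = 0 := hN (N₀ + 1) (Nat.le_succ _)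
  have h3 : h * (f (N₀ + 1) - f N₀) = 0 := by linear_combination h2 - h1
  have h4 : h = 0 := (mul_eq_zero.1 h3).resolve_right (sub_ne_zero.2 (hf.diff N₀))
  rw [h4, zero_mul, add_zero] at h1
  exact ⟨h1, h4⟩

/-- The `𝒟`-module of the classes of the sequences `g + h f_N`. -/
noncomputable def Ext {f c : ℕ → k[X]} (hf : Adm f c) : Submodule (DOp k) (QQ k) where
  carrier := {q | ∃ g h, q = el f g h}
  zero_mem' := by
    refine ⟨0, 0, ?_⟩
    rw [el]
    simp only [zero_mul, add_zero]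
    rfl
  add_mem' := by
    rintro _ _ ⟨g, h, rfl⟩ ⟨g', h', rfl⟩
    exact ⟨_, _, el_add f g h g' h'⟩
  smul_mem' := by
    rintro θ _ ⟨g, h, rfl⟩
    obtain ⟨g', h'⟩ := smul_el hf θ g h
    exact ⟨_, _, h'⟩

/-- The parametrisation of the module by pairs of polynomials. -/
noncomputable def E {f c : ℕ → k[X]} (hf : Adm f c) : (k[X] × k[X]) →ₗ[k] Ext hf where
  toFun u := ⟨el f u.1 u.2, _, _, rfl⟩
  map_add' u v := Subtype.ext (el_add f _ _ _ _).symm
  map_smul' r u := Subtype.ext (el_smul f _ _ _).symm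

theorem E_injective {f c : ℕ → k[X]} (hf : Adm f c) : Function.Injective (E hf) := by
  rw [injective_iff_map_eq_zero]
  rintro ⟨g, h⟩ h0
  have := el_eq_zero hf (congrArg Subtype.val h0)
  exact Prod.ext this.1 this.2

theorem E_surjective {f c : ℕ → k[X]} (hf : Adm f c) : Function.Surjective (E hf) := by
  rintro ⟨_, g, h, rfl⟩
  exact ⟨(g, h), rfl⟩

theorem smul_E {f c : ℕ → k[X]} (hf : Adm f c) (θ : DOp k) (g h : k[X]) :
    ∃ g', θ • E hf (g, h) = E hf (g', θ • h) := by
  obtain ⟨g', h'⟩ := smul_el hf θ g h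
  exact ⟨g', Subtype.ext h'⟩

theorem smul_E_zero {f c : ℕ → k[X]} (hf : Adm f c) (θ : DOp k) (g : k[X]) :
    θ • E hf (g, 0) = E hf (θ • g, 0) :=
  Subtype.ext (smul_el_zero f θ g)

theorem mulOp_E {f c : ℕ → k[X]} (hf : Adm f c) (u g h : k[X]) :
    mulOp u • E hf (g, h) = E hf (u * g, u * h) :=
  Subtype.ext (mulOp_el f u g h)

theorem dOp_E {f c : ℕ → k[X]} (hf : Adm f c) (t : ℕ) (ht : 1 ≤ t) :
    dOp k t • E hf (0, 1) = E hf (c t, 0) :=
  Subtype.ext (dOp_el hf t ht)

/-- The submodule of the constant sequences. -/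
noncomputable def Sub {f c : ℕ → k[X]} (hf : Adm f c) : Submodule (DOp k) (Ext hf) where
  carrier := {q | ∃ g, q = E hf (g, 0)}
  zero_mem' := ⟨0, by rw [← Prod.zero_eq_mk, map_zero]⟩
  add_mem' := by
    rintro _ _ ⟨g, rfl⟩ ⟨g', rfl⟩
    exact ⟨g + g', by rw [← map_add, Prod.mk_add_mk, add_zero]⟩
  smul_mem' := by
    rintro θ _ ⟨g, rfl⟩
    exact ⟨_, smul_E_zero hf θ g⟩

/-- The isomorphism of `k[x]` and the submodule of the constant sequences. -/
noncomputable def toSub {f c : ℕ → k[X]} (hf : Adm f c) : k[X] →ₗ[DOp k] Sub hf where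
  toFun g := ⟨E hf (g, 0), g, rfl⟩
  map_add' g g' := Subtype.ext (by
    change E hf (g + g', 0) = E hf (g, 0) + E hf (g', 0)
    rw [← map_add, Prod.mk_add_mk, add_zero])
  map_smul' θ g := Subtype.ext (smul_E_zero hf θ g).symm

theorem toSub_surjective {f c : ℕ → k[X]} (hf : Adm f c) : Function.Surjective (toSub hf) := by
  rintro ⟨_, g, rfl⟩
  exact ⟨g, rfl⟩

/-- The isomorphism of `k[x]` and the quotient by the constant sequences. -/
noncomputable def toQuot {f c : ℕ → k[X]} (hf : Adm f c) : k[X] →ₗ[DOp k] (Ext hf ⧸ Sub hf) where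
  toFun h := Submodule.Quotient.mk (E hf (0, h))
  map_add' h h' := by
    rw [← Submodule.Quotient.mk_add, ← map_add, Prod.mk_add_mk, add_zero]
  map_smul' θ h := by
    rw [RingHom.id_apply, ← Submodule.Quotient.mk_smul, Submodule.Quotient.eq]
    obtain ⟨g', h'⟩ := smul_E hf θ 0 h
    refine ⟨-g', ?_⟩
    rw [h', ← map_sub, Prod.mk_sub_mk, zero_sub, sub_self]

theorem toQuot_surjective {f c : ℕ → k[X]} (hf : Adm f c) : Function.Surjective (toQuot hf) := by
  intro q
  obtain ⟨m, rfl⟩ := Submodule.Quotient.mk_surjective _ q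
  obtain ⟨⟨g, h⟩, rfl⟩ := E_surjective hf m
  refine ⟨h, ?_⟩
  change Submodule.Quotient.mk (E hf (0, h)) = _
  rw [Submodule.Quotient.eq]
  refine ⟨-g, ?_⟩
  rw [← map_sub, Prod.mk_sub_mk, zero_sub, sub_self]

end Pool.Agent.X329.Dmod
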