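import Mathlib
import Pool.Agent.X329.Dmod.Model

/-!
# Filtrations on the extensions
-/

set_option autoImplicit false

namespace Pool.Agent.X329.Dmod

open Polynomial

universe u

variable {k : Type u} [Field k]

theorem mem_bern {a t s : ℕ} (h : a + t ≤ s) : mulOp (X ^ a) * dOp k t ∈ bern k s :=
  Submodule.subset_span ⟨a, t, h, rfl⟩

/-- Induction on the elements of the Bernstein filtration. -/
theorem bern_induction {M : Type*} [AddCommGroup M] [Module k M] [Module (DOp k) M]
    [IsScalarTower k (DOp k) M] (s : ℕ) (P : Submodule k M) (m : M)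
    (h : ∀ a t, a + t ≤ s → (mulOp (X ^ a) * dOp k t) • m ∈ P) (θ : DOp k) (hθ : θ ∈ bern k s) :
    θ • m ∈ P := by
  induction hθ using Submodule.span_induction with
  | mem x hx =>
    obtain ⟨a, t, h1, h2⟩ := hx
    have : x = mulOp (X ^ a) * dOp k t := Subtype.ext h2
    rw [this]
    exact h a t h1
  | zero => rw [zero_smul]; exact P.zero_mem
  | add x y _ _ hx hy => rw [add_smul]; exact P.add_mem hx hy
  | smul r x _ hx => rw [smul_assoc]; exact P.smul_mem r hx

theorem degree_op {a t i j : ℕ} (h : a + t ≤ i) {g : k[X]} (hg : g ∈ degreeLT k (j + 1)) :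
    (mulOp (X ^ a) * dOp k t) • g ∈ degreeLT k (i + j + 1) := by
  change X ^ a * hasseDeriv t g ∈ _
  rw [mem_degreeLT] at hg ⊢
  by_cases h0 : X ^ a * hasseDeriv t g = 0
  · rw [h0, degree_zero]
    exact WithBot.bot_lt_coe _
  have hg0 : g ≠ 0 := by
    rintro rfl
    exact h0 (by simp)
  rw [← natDegree_lt_iff_degree_lt hg0] at hg
  rw [← natDegree_lt_iff_degree_lt h0]
  have h1 : (X ^ a * hasseDeriv t g).natDegree ≤ a + (g.natDegree - t) :=
    natDegree_mul_le.trans (add_le_add (natDegree_X_pow_le a) (natDegree_hasseDeriv_le g t))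
  omega

/-- An image of `k[x]` is holonomic. -/
theorem holonomic_of_surjective {M : Type u} [AddCommGroup M] [Module k M] [Module (DOp k) M]
    [IsScalarTower k (DOp k) M] (φ : k[X] →ₗ[DOp k] M) (hφ : Function.Surjective φ) :
    IsHolonomic k M := by
  have hsm : ∀ (r : k) (g : k[X]), φ (r • g) = r • φ g := by
    intro r g
    have h1 : r • g = (r • (1 : DOp k)) • g := by rw [smul_assoc, one_smul]
    rw [h1, map_smul, smul_assoc, one_smul]
  let ψ : k[X] →ₗ[k] M :=
    { toFun := φ
      map_add' := map_add φ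
      map_smul' := hsm }
  refine ⟨fun i => (degreeLT k (i + 1)).map ψ, ⟨?_, ?_, ?_⟩, 2, ?_⟩
  · intro i j hij
    exact Submodule.map_mono (degreeLT_mono (by omega))
  · intro m
    obtain ⟨g, rfl⟩ := hφ m
    refine ⟨g.natDegree, g, ?_, rfl⟩
    rw [SetLike.mem_coe, mem_degreeLT]
    exact lt_of_le_of_lt degree_le_natDegree (by exact_mod_cast Nat.lt_succ_self _)
  · rintro i j θ hθ _ ⟨g, hg, rfl⟩
    apply bern_induction i _ _ _ θ hθ
    intro a t h
    refine ⟨(mulOp (X ^ a) * dOp k t) • g, degree_op h hg, ?_⟩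
    exact map_smul φ _ g
  · intro i hi
    refine (rank_map_le ψ (degreeLT k (i + 1))).trans ?_
    rw [← Module.finrank_eq_rank, (degreeLTEquiv k (i + 1)).finrank_eq, Module.finrank_fin_fun]
    exact_mod_cast (by omega)

section
variable {f c : ℕ → k[X]} (hf : Adm f c)

/-- The two generators. -/
noncomputable def gens : Set (Ext hf) := {E hf (1, 0), E hf (0, 1)}

theorem stage_eq (s : ℕ) : stage k (gens hf) s = Submodule.span k
    ({m | ∃ b ≤ s, m = E hf (X ^ b, 0)} ∪
      {m | ∃ a t, a + t ≤ s ∧ 1 ≤ t ∧ m = E hf (X ^ a * c t, 0)} ∪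
      {m | ∃ b ≤ s, m = E hf (0, X ^ b)}) := by
  have h1 : ∀ a, (mulOp (X ^ a) * dOp k 0) • E hf (1, 0) = E hf (X ^ a, 0) := by
    intro a
    rw [smul_E_zero]
    congr 2
    change X ^ a * hasseDeriv 0 (1 : k[X]) = X ^ a
    rw [hasseDeriv_zero, LinearMap.id_apply, mul_one]
  have h2 : ∀ a t, 1 ≤ t → (mulOp (X ^ a) * dOp k t) • E hf (1, 0) = 0 := by
    intro a t ht
    rw [smul_E_zero]
    have : (mulOp (X ^ a) * dOp k t) • (1 : k[X]) = 0 := by
      change X ^ a * hasseDeriv t (1 : k[X]) = 0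
      rw [hasseDeriv_apply_one t ht, mul_zero]
    rw [this, ← Prod.zero_eq_mk, map_zero]
  have h3 : ∀ a, (mulOp (X ^ a) * dOp k 0) • E hf (0, 1) = E hf (0, X ^ a) := by
    intro a
    have : dOp k 0 = 1 := Subtype.ext hasseDeriv_zero
    rw [this, mul_one, mulOp_E, mul_zero, mul_one]
  have h4 : ∀ a t, 1 ≤ t → (mulOp (X ^ a) * dOp k t) • E hf (0, 1) = E hf (X ^ a * c t, 0) := by
    intro a t ht
    refine (mul_smul (mulOp (X ^ a)) (dOp k t) (E hf (0, 1))).trans ?_
    rw [dOp_E hf t ht, mulOp_E, mul_zero]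
  apply le_antisymm
  · apply Submodule.span_le.2
    rintro _ ⟨θ, hθ, m, hm, rfl⟩
    apply bern_induction s _ _ _ θ hθ
    intro a t h
    rcases hm with rfl | rfl
    · rcases Nat.eq_zero_or_pos t with rfl | ht
      · rw [h1]
        exact Submodule.subset_span (Or.inl (Or.inl ⟨a, by omega, rfl⟩))
      · rw [h2 a t ht]
        exact Submodule.zero_mem _
    · rcases Nat.eq_zero_or_pos t with rfl | ht
      · rw [h3]
        exact Submodule.subset_span (Or.inr ⟨a, by omega, rfl⟩)
      · rw [h4 a t ht]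
        exact Submodule.subset_span (Or.inl (Or.inr ⟨a, t, h, ht, rfl⟩))
  · apply Submodule.span_le.2
    rintro m ((⟨b, hb, rfl⟩ | ⟨a, t, h, ht, rfl⟩) | ⟨b, hb, rfl⟩)
    · exact Submodule.subset_span ⟨_, mem_bern (a := b) (t := 0) (by omega), _, Or.inl rfl,
        (h1 b).symm⟩
    · exact Submodule.subset_span ⟨_, mem_bern h, _, Or.inr rfl, (h4 a t ht).symm⟩
    · exact Submodule.subset_span ⟨_, mem_bern (a := b) (t := 0) (by omega), _, Or.inr rfl,
        (h3 b).symm⟩

theorem gens_span : Submodule.span (DOp k) (gens hf) = ⊤ := by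
  rw [eq_top_iff]
  rintro m -
  obtain ⟨⟨g, h⟩, rfl⟩ := E_surjective hf m
  have : E hf (g, h) = mulOp g • E hf (1, 0) + mulOp h • E hf (0, 1) := by
    rw [mulOp_E, mulOp_E, ← map_add, Prod.mk_add_mk]
    simp
  rw [this]
  exact Submodule.add_mem _ (Submodule.smul_mem _ _ (Submodule.subset_span (Or.inl rfl)))
    (Submodule.smul_mem _ _ (Submodule.subset_span (Or.inr rfl)))

/-- The monomials in the module. -/
noncomputable def mon : ℕ ⊕ ℕ → Ext hf :=
  Sum.elim (fun b => E hf (X ^ b, 0)) (fun b => E hf (0, X ^ b))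

theorem mon_indep : LinearIndependent k (mon hf) := by
  have h1 := ((basisMonomials k).prod (basisMonomials k)).linearIndependent
  have h2 := h1.map' (E hf) (LinearMap.ker_eq_bot.2 (E_injective hf))
  have h3 : mon hf = (E hf) ∘ ((basisMonomials k).prod (basisMonomials k)) := by
    funext i
    rcases i with i | i <;> simp [mon, Module.Basis.prod_apply, X_pow_eq_monomial]
  rw [h3]
  exact h2

/-- The dimension of the span of a finite set of monomials. -/
theorem finrank_mon (A : Finset (ℕ ⊕ ℕ)) :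
    Module.rank k (Submodule.span k (mon hf '' A)) = A.card := by
  have h := (mon_indep hf).comp (fun i : A => (i : ℕ ⊕ ℕ)) Subtype.val_injective
  have h2 := finrank_span_eq_card h
  have h3 : Set.range (mon hf ∘ fun i : A => (i : ℕ ⊕ ℕ)) = mon hf '' (A : Set (ℕ ⊕ ℕ)) := by
    rw [Set.range_comp]
    congr 1
    ext x
    simp
  rw [h3, Fintype.card_coe] at h2
  have : FiniteDimensional k (Submodule.span k (mon hf '' (A : Set (ℕ ⊕ ℕ)))) :=
    FiniteDimensional.span_of_finite k (A.finite_toSet.image _)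
  rw [← Module.finrank_eq_rank, h2]

end

end Pool.Agent.X329.Dmod
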