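import Mathlib
import Pool.Agent.X329.Dmod.Stage

/-!
# Lacunary power series in characteristic `p`
-/

set_option autoImplicit false

namespace Pool.Agent.X329.Dmod

open Polynomial

universe u

variable {k : Type u} [Field k] (p : ℕ) [hp : Fact p.Prime] [CharP k p]

/-- `D_t x ^ (p ^ a + p ^ b)` for `t ≥ 1`: the main part. -/
noncomputable def partU (k : Type u) [Field k] (a b t : ℕ) : k[X] :=
  if t = p ^ a then X ^ (p ^ b) else 0

/-- `D_t x ^ (p ^ a + p ^ b)` for `t ≥ 1`: the small part. -/
noncomputable def partV (k : Type u) [Field k] (a b t : ℕ) : k[X] :=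
  (if t = p ^ b then X ^ (p ^ a) else 0) + if t = p ^ a + p ^ b then 1 else 0

theorem choose_eq (a b t : ℕ) : (((p ^ a + p ^ b).choose t : ℕ) : k) =
    (if t = p ^ a + p ^ b then 1 else 0) + (if t = p ^ a then 1 else 0) +
      (if t = p ^ b then 1 else 0) + if t = 0 then 1 else 0 := by
  rw [← coeff_X_add_one_pow k]
  have h : (X + 1 : k[X]) ^ (p ^ a + p ^ b) =
      X ^ (p ^ a + p ^ b) + X ^ (p ^ a) + X ^ (p ^ b) + 1 := by
    have := expChar_of_injective_algebraMap (C_injective (R := k)) p
    rw [pow_add, add_pow_char_pow, add_pow_char_pow, one_pow, one_pow]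
    ring
  rw [h]
  simp only [coeff_add, coeff_X_pow, coeff_one]

theorem hasseDeriv_two (a b t : ℕ) (hab : a < b) (ht : 1 ≤ t) :
    hasseDeriv t (X ^ (p ^ a + p ^ b) : k[X]) = partU p k a b t + partV p k a b t := by
  have hpa : 0 < p ^ a := pow_pos hp.out.pos a
  have hlt : p ^ a < p ^ b := Nat.pow_lt_pow_right hp.out.one_lt hab
  rw [X_pow_eq_monomial, hasseDeriv_monomial, mul_one, choose_eq p, partU, partV]
  by_cases h1 : t = p ^ a
  · rw [if_neg (by omega), if_pos h1, if_neg (by omega), if_neg (by omega), if_pos h1,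
      if_neg (by omega), if_neg (by omega), h1, Nat.add_sub_cancel_left]
    simp [X_pow_eq_monomial]
  by_cases h2 : t = p ^ b
  · rw [if_neg (by omega), if_neg h1, if_pos h2, if_neg (by omega), if_neg h1,
      if_pos h2, if_neg (by omega), h2, Nat.add_sub_cancel]
    simp [X_pow_eq_monomial]
  by_cases h3 : t = p ^ a + p ^ b
  · rw [if_pos h3, if_neg h1, if_neg h2, if_neg (by omega), if_neg h1,
      if_neg h2, if_pos h3, h3, Nat.sub_self]
    simp
  · rw [if_neg h3, if_neg h1, if_neg h2, if_neg (by omega), if_neg h1,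
      if_neg h2, if_neg h3]
    simp

variable (a b : ℕ → ℕ)

/-- The partial sums of the power series `∑_j x ^ (p ^ (a j) + p ^ (b j))`. -/
noncomputable def fser (k : Type u) [Field k] (N : ℕ) : k[X] :=
  ∑ j ∈ Finset.range N, X ^ (p ^ a j + p ^ b j)

/-- The derivatives of the power series. -/
noncomputable def cser (k : Type u) [Field k] (t : ℕ) : k[X] :=
  ∑ j ∈ Finset.range t, (partU p k (a j) (b j) t + partV p k (a j) (b j) t)

variable {a b}

theorem lt_pow (ha : StrictMono a) (j : ℕ) : j < p ^ a j :=
  lt_of_le_of_lt ha.le_apply (Nat.lt_pow_self hp.out.one_lt)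

theorem adm (ha : StrictMono a) (hab : ∀ j, a j < b j) :
    Adm (fser p a b k) (cser p a b k) := by
  constructor
  · intro t ht N hN
    rw [fser, cser, map_sum]
    have h : ∀ j, hasseDeriv t (X ^ (p ^ a j + p ^ b j) : k[X]) =
        partU p k (a j) (b j) t + partV p k (a j) (b j) t := fun j =>
      hasseDeriv_two p (a j) (b j) t (hab j) ht
    simp only [h]
    symm
    apply Finset.sum_subset (Finset.range_mono hN)
    intro j _ hj
    rw [Finset.mem_range, not_lt] at hj
    have h1 := lt_pow p ha j
    have h2 : p ^ a j < p ^ b j := Nat.pow_lt_pow_right hp.out.one_lt (hab j)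
    rw [partU, partV, if_neg (by omega), if_neg (by omega), if_neg (by omega)]
    simp
  · intro N
    rw [fser, fser, Finset.sum_range_succ]
    intro h
    have : (X : k[X]) ^ (p ^ a N + p ^ b N) = 0 := by linear_combination h
    exact pow_ne_zero _ X_ne_zero this

variable (a b)

/-- The exponents of the monomials in the `s`-th step of the filtration. -/
def exps (s : ℕ) : Finset ℕ :=
  Finset.range (s + 1) ∪ (Finset.range (s + 1)).biUnion fun j =>
    ((Finset.range (s + 1)).filter fun c => c + p ^ a j ≤ s).image fun c => c + p ^ b j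

variable {a b}

theorem stage_seq (ha : StrictMono a) (hab : ∀ j, a j < b j) (s : ℕ) :
    stage k (gens (adm (k := k) p ha hab)) s =
      Submodule.span k (mon (adm (k := k) p ha hab) ''
        ((exps p a b s).disjSum (Finset.range (s + 1)) : Finset (ℕ ⊕ ℕ))) := by
  set hf := adm (k := k) p ha hab with hhf
  rw [stage_eq]
  set S := Submodule.span k (mon hf ''
        ((exps p a b s).disjSum (Finset.range (s + 1)) : Finset (ℕ ⊕ ℕ))) with hS
  have hlow : ∀ c, c ≤ s → E hf (X ^ c, 0) ∈ S := by
    intro c hc
    apply Submodule.subset_span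
    refine ⟨Sum.inl c, ?_, rfl⟩
    rw [Finset.mem_coe, Finset.inl_mem_disjSum]
    exact Finset.mem_union_left _ (Finset.mem_range.2 (by omega))
  have hhigh : ∀ c j, c + p ^ a j ≤ s → E hf (X ^ (c + p ^ b j), 0) ∈ S := by
    intro c j hc
    apply Submodule.subset_span
    refine ⟨Sum.inl (c + p ^ b j), ?_, rfl⟩
    rw [Finset.mem_coe, Finset.inl_mem_disjSum]
    apply Finset.mem_union_right
    rw [Finset.mem_biUnion]
    have := lt_pow p ha j
    refine ⟨j, Finset.mem_range.2 (by omega), Finset.mem_image.2 ⟨c, ?_, rfl⟩⟩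
    exact Finset.mem_filter.2 ⟨Finset.mem_range.2 (by omega), hc⟩
  have hright : ∀ c, c ≤ s → E hf (0, X ^ c) ∈ S := by
    intro c hc
    apply Submodule.subset_span
    refine ⟨Sum.inr c, ?_, rfl⟩
    rw [Finset.mem_coe, Finset.inr_mem_disjSum]
    exact Finset.mem_range.2 (by omega)
  have hEsum : ∀ (t : ℕ) (F : ℕ → k[X]), (∀ j < t, E hf (F j, 0) ∈ S) →
      E hf (∑ j ∈ Finset.range t, F j, 0) ∈ S := by
    intro t F hF
    have : E hf (∑ j ∈ Finset.range t, F j, 0) = ∑ j ∈ Finset.range t, E hf (F j, 0) := by
      rw [← map_sum]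
      congr 1
      ext
      · simp [Prod.fst_sum]
      · simp [Prod.snd_sum]
    rw [this]
    exact Submodule.sum_mem _ fun j hj => hF j (Finset.mem_range.1 hj)
  have hadd : ∀ u v : k[X], E hf (u, 0) ∈ S → E hf (v, 0) ∈ S → E hf (u + v, 0) ∈ S := by
    intro u v hu hv
    have : E hf (u + v, 0) = E hf (u, 0) + E hf (v, 0) := by
      rw [← map_add, Prod.mk_add_mk, add_zero]
    rw [this]
    exact S.add_mem hu hv
  have hzero : E hf (0, 0) ∈ S := by
    rw [← Prod.zero_eq_mk, map_zero]
    exact S.zero_mem
  have hV : ∀ c t j, c + t ≤ s → E hf (X ^ c * partV p k (a j) (b j) t, 0) ∈ S := by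
    intro c t j hc
    rw [partV, mul_add]
    have h2 : p ^ a j < p ^ b j := Nat.pow_lt_pow_right hp.out.one_lt (hab j)
    apply hadd
    · split_ifs with h
      · rw [← pow_add]
        exact hlow _ (by omega)
      · rw [mul_zero]
        exact hzero
    · split_ifs with h
      · rw [mul_one]
        exact hlow _ (by omega)
      · rw [mul_zero]
        exact hzero
  have hU : ∀ c t j, c + t ≤ s → E hf (X ^ c * partU p k (a j) (b j) t, 0) ∈ S := by
    intro c t j hc
    rw [partU]
    split_ifs with h
    · rw [← pow_add]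
      exact hhigh _ _ (by omega)
    · rw [mul_zero]
      exact hzero
  apply le_antisymm
  · apply Submodule.span_le.2
    rintro m ((⟨c, hc, rfl⟩ | ⟨c, t, h, ht, rfl⟩) | ⟨c, hc, rfl⟩)
    · exact hlow c hc
    · rw [cser, Finset.mul_sum]
      apply hEsum
      intro j _
      rw [mul_add]
      exact hadd _ _ (hU c t j h) (hV c t j h)
    · exact hright c hc
  · rw [hS]
    apply Submodule.span_le.2
    rintro _ ⟨i, hi, rfl⟩
    rw [Finset.mem_coe, Finset.mem_disjSum] at hi
    rcases hi with ⟨c, hc, rfl⟩ | ⟨c, hc, rfl⟩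
    · rcases Finset.mem_union.1 hc with hc | hc
      · rw [Finset.mem_range] at hc
        exact Submodule.subset_span (Or.inl (Or.inl ⟨c, by omega, rfl⟩))
      · obtain ⟨j, -, hj⟩ := Finset.mem_biUnion.1 hc
        obtain ⟨c, hc', rfl⟩ := Finset.mem_image.1 hj
        have hc2 := (Finset.mem_filter.1 hc').2
        have hpos : 1 ≤ p ^ a j := pow_pos hp.out.pos _
        have hjlt := lt_pow p ha j
        set T := Submodule.span k
          ({m | ∃ b ≤ s, m = E hf (X ^ b, 0)} ∪
            {m | ∃ e t, e + t ≤ s ∧ 1 ≤ t ∧ m = E hf (X ^ e * cser p a b k t, 0)} ∪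
            {m | ∃ b ≤ s, m = E hf (0, X ^ b)}) with hT
        have hlow' : ∀ c, c ≤ s → E hf (X ^ c, 0) ∈ T := fun c hc =>
          Submodule.subset_span (Or.inl (Or.inl ⟨c, hc, rfl⟩))
        have hzero' : E hf (0, 0) ∈ T := by
          rw [← Prod.zero_eq_mk, map_zero]
          exact T.zero_mem
        have h1 : E hf (X ^ c * cser p a b k (p ^ a j), 0) ∈ T :=
          Submodule.subset_span (Or.inl (Or.inr ⟨c, p ^ a j, hc2, hpos, rfl⟩))
        have h2 : E hf (X ^ c * ∑ i ∈ Finset.range (p ^ a j),
            partV p k (a i) (b i) (p ^ a j), 0) ∈ T := by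
          have hE : E hf (X ^ c * ∑ i ∈ Finset.range (p ^ a j),
              partV p k (a i) (b i) (p ^ a j), 0) = ∑ i ∈ Finset.range (p ^ a j),
                E hf (X ^ c * partV p k (a i) (b i) (p ^ a j), 0) := by
            rw [← map_sum]
            congr 1
            ext
            · simp [Prod.fst_sum, Finset.mul_sum]
            · simp [Prod.snd_sum]
          rw [hE]
          apply Submodule.sum_mem
          intro i _
          have h2 : p ^ a i < p ^ b i := Nat.pow_lt_pow_right hp.out.one_lt (hab i)
          have hsplit : E hf (X ^ c * partV p k (a i) (b i) (p ^ a j), 0) =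
              E hf (X ^ c * (if p ^ a j = p ^ b i then X ^ (p ^ a i) else 0), 0) +
              E hf (X ^ c * (if p ^ a j = p ^ a i + p ^ b i then 1 else 0), 0) := by
            rw [← map_add, Prod.mk_add_mk, add_zero, partV, mul_add]
          rw [hsplit]
          apply T.add_mem
          · split_ifs with h
            · rw [← pow_add]
              exact hlow' _ (by omega)
            · rw [mul_zero]
              exact hzero'
          · split_ifs with h
            · rw [mul_one]
              exact hlow' _ (by omega)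
            · rw [mul_zero]
              exact hzero'
        have h3 : ∑ i ∈ Finset.range (p ^ a j), partU p k (a i) (b i) (p ^ a j) =
            (X : k[X]) ^ (p ^ b j) := by
          rw [Finset.sum_eq_single j]
          · rw [partU, if_pos rfl]
          · intro i _ hij
            rw [partU, if_neg]
            intro h
            exact hij (ha.injective (Nat.pow_right_injective hp.out.two_le h)).symm
          · intro h
            exact absurd (Finset.mem_range.2 hjlt) h
        have h4 : mon hf (Sum.inl (c + p ^ b j)) =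
            E hf (X ^ c * cser p a b k (p ^ a j), 0) -
              E hf (X ^ c * ∑ i ∈ Finset.range (p ^ a j),
                partV p k (a i) (b i) (p ^ a j), 0) := by
          rw [← map_sub, Prod.mk_sub_mk, sub_zero, cser, Finset.sum_add_distrib, h3, mul_add,
            add_sub_cancel_right, ← pow_add]
          rfl
        rw [h4]
        exact T.sub_mem h1 h2
    · rw [Finset.mem_range] at hc
      exact Submodule.subset_span (Or.inr ⟨c, by omega, rfl⟩)

theorem rank_stage (ha : StrictMono a) (hab : ∀ j, a j < b j) (s : ℕ) :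
    Module.rank k (stage k (gens (adm (k := k) p ha hab)) s) =
      (((exps p a b s).card + (s + 1) : ℕ) : Cardinal) := by
  rw [stage_seq p ha hab, finrank_mon, Finset.card_disjSum, Finset.card_range]

end Pool.Agent.X329.Dmod
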