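import Mathlib
import Pool.Agent.X329.Dmod.Seq

/-!
# The filtration defined by generators
-/

set_option autoImplicit false

namespace Pool.Agent.X329.Dmod

open Polynomial

universe u

variable {k : Type u} [Field k]

theorem dOp_mul_mulOp (t b : ℕ) : dOp k t * mulOp (X ^ b) =
    ∑ ij ∈ Finset.HasAntidiagonal.antidiagonal t,
      ((b.choose ij.1 : ℕ) : k) • (mulOp (X ^ (b - ij.1)) * dOp k ij.2) := by
  apply Subtype.ext
  apply LinearMap.ext
  intro g
  have h1 : ∀ S : Finset (ℕ × ℕ), (Subtype.val (∑ ij ∈ S,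
      ((b.choose ij.1 : ℕ) : k) • (mulOp (X ^ (b - ij.1)) * dOp k ij.2) : DOp k) :
        Module.End k k[X]) g = ∑ ij ∈ S, ((b.choose ij.1 : ℕ) : k) •
          (X ^ (b - ij.1) * hasseDeriv ij.2 g) := by
    intro S
    induction S using Finset.cons_induction with
    | empty => rfl
    | cons x S hx ih =>
      rw [Finset.sum_cons, Finset.sum_cons, ← ih]
      rfl
  rw [h1]
  change hasseDeriv t (X ^ b * g) = _
  rw [hasseDeriv_mul]
  refine Finset.sum_congr rfl fun ij _ => ?_
  rw [X_pow_eq_monomial, hasseDeriv_monomial, mul_one, ← smul_mul_assoc, X_pow_eq_monomial,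
    smul_monomial, smul_eq_mul, mul_one]

theorem dOp_mul_dOp (t u : ℕ) : dOp k t * dOp k u = (((t + u).choose t : ℕ) : k) • dOp k (t + u) := by
  apply Subtype.ext
  have h := hasseDeriv_comp (R := k) t u
  apply LinearMap.ext
  intro g
  have h1 := LinearMap.congr_fun h g
  change hasseDeriv t (hasseDeriv u g) = _
  rw [LinearMap.comp_apply] at h1
  rw [h1]
  change (t + u).choose t • hasseDeriv (t + u) g = (((t + u).choose t : ℕ) : k) •
    hasseDeriv (t + u) g
  rw [Nat.cast_smul_eq_nsmul]

theorem mulOp_mul (a b : ℕ) : mulOp (X ^ a : k[X]) * mulOp (X ^ b) = mulOp (X ^ (a + b)) := by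
  apply Subtype.ext
  apply LinearMap.ext
  intro g
  change X ^ a * (X ^ b * g) = X ^ (a + b) * g
  ring

theorem bern_mul {i j : ℕ} {θ θ' : DOp k} (h : θ ∈ bern k i) (h' : θ' ∈ bern k j) :
    θ * θ' ∈ bern k (i + j) := by
  have hle : bern k i * bern k j ≤ bern k (i + j) := by
    rw [bern, bern, Submodule.span_mul_span]
    apply Submodule.span_le.2
    rintro _ ⟨x, ⟨a, t, h1, h2⟩, y, ⟨b, u, h3, h4⟩, rfl⟩
    have hx : x = mulOp (X ^ a) * dOp k t := Subtype.ext h2
    have hy : y = mulOp (X ^ b) * dOp k u := Subtype.ext h4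
    change x * y ∈ bern k (i + j)
    have h5 : x * y = ∑ ij ∈ Finset.HasAntidiagonal.antidiagonal t,
        (((b.choose ij.1 : ℕ) : k) * (((ij.2 + u).choose ij.2 : ℕ) : k)) •
          (mulOp (X ^ (a + (b - ij.1))) * dOp k (ij.2 + u)) := by
      rw [hx, hy]
      calc mulOp (X ^ a) * dOp k t * (mulOp (X ^ b) * dOp k u) =
          mulOp (X ^ a) * (dOp k t * mulOp (X ^ b)) * dOp k u := by
            simp only [mul_assoc]
        _ = _ := by
            rw [dOp_mul_mulOp, Finset.mul_sum, Finset.sum_mul]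
            refine Finset.sum_congr rfl fun ij _ => ?_
            rw [mul_smul_comm, smul_mul_assoc, mul_assoc, mul_assoc, dOp_mul_dOp, mul_smul_comm,
              mul_smul_comm, smul_smul, ← mul_assoc, mulOp_mul]
    rw [h5]
    apply Submodule.sum_mem
    intro ij hij
    have h6 := Finset.HasAntidiagonal.mem_antidiagonal.1 hij
    exact Submodule.smul_mem _ _ (mem_bern (by omega))
  exact hle (Submodule.mul_mem_mul h h')

theorem bern_mono {i j : ℕ} (h : i ≤ j) : bern k i ≤ bern k j := by
  apply Submodule.span_mono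
  rintro θ ⟨a, t, h1, h2⟩
  exact ⟨a, t, by omega, h2⟩

/-- The filtration `F_i M_0` is a filtration if it is exhaustive. -/
theorem stage_filtration {M : Type*} [AddCommGroup M] [Module k M] [Module (DOp k) M]
    [IsScalarTower k (DOp k) M] (S : Set M) (h : ∀ m, ∃ i, m ∈ stage k S i) :
    IsFiltration k (stage k S) := by
  refine ⟨?_, h, ?_⟩
  · intro i j hij
    apply Submodule.span_mono
    rintro _ ⟨θ, hθ, m, hm, rfl⟩
    exact ⟨θ, bern_mono hij hθ, m, hm, rfl⟩
  · intro i j θ hθ m hm
    induction hm using Submodule.span_induction with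
    | mem x hx =>
      obtain ⟨θ', hθ', m, hm, rfl⟩ := hx
      rw [← mul_smul]
      exact Submodule.subset_span ⟨_, bern_mul hθ hθ', m, hm, rfl⟩
    | zero => rw [smul_zero]; exact Submodule.zero_mem _
    | add x y _ _ hx hy => rw [smul_add]; exact Submodule.add_mem _ hx hy
    | smul r x _ hx =>
      have : θ • r • x = r • θ • x := by
        have e1 : r • x = (r • (1 : DOp k)) • x := by rw [smul_assoc, one_smul]
        rw [e1, ← mul_smul, mul_smul_comm, mul_one, smul_assoc]
      rw [this]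
      exact Submodule.smul_mem _ _ hx

variable (p : ℕ) [hp : Fact p.Prime] [CharP k p] {a b : ℕ → ℕ}

theorem exhaust (ha : StrictMono a) (hab : ∀ j, a j < b j) (m : Ext (adm (k := k) p ha hab)) :
    ∃ i, m ∈ stage k (gens (adm (k := k) p ha hab)) i := by
  obtain ⟨⟨g, h⟩, rfl⟩ := E_surjective _ m
  set hf := adm (k := k) p ha hab with hhf
  refine ⟨max g.natDegree h.natDegree, ?_⟩
  set s := max g.natDegree h.natDegree with hs
  have h1 : ∀ c, c ≤ s → E hf (X ^ c, 0) ∈ stage k (gens hf) s := by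
    intro c hc
    rw [stage_eq]
    exact Submodule.subset_span (Or.inl (Or.inl ⟨c, hc, rfl⟩))
  have h2 : ∀ c, c ≤ s → E hf (0, X ^ c) ∈ stage k (gens hf) s := by
    intro c hc
    rw [stage_eq]
    exact Submodule.subset_span (Or.inr ⟨c, hc, rfl⟩)
  have h3 : (g, h) = ∑ i ∈ Finset.range (s + 1), (g.coeff i • ((X : k[X]) ^ i, (0 : k[X])) +
      h.coeff i • ((0 : k[X]), (X : k[X]) ^ i)) := by
    refine Prod.ext ?_ ?_
    · rw [Prod.fst_sum]
      change g = _
      conv_lhs => rw [g.as_sum_range' (s + 1) (by omega)]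
      refine Finset.sum_congr rfl fun i _ => ?_
      simp [smul_eq_C_mul, C_mul_X_pow_eq_monomial]
    · rw [Prod.snd_sum]
      change h = _
      conv_lhs => rw [h.as_sum_range' (s + 1) (by omega)]
      refine Finset.sum_congr rfl fun i _ => ?_
      simp [smul_eq_C_mul, C_mul_X_pow_eq_monomial]
  rw [h3, map_sum]
  apply Submodule.sum_mem
  intro i hi
  rw [Finset.mem_range] at hi
  rw [map_add, map_smul, map_smul]
  exact Submodule.add_mem _ (Submodule.smul_mem _ _ (h1 i (by omega)))
    (Submodule.smul_mem _ _ (h2 i (by omega)))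

end Pool.Agent.X329.Dmod
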