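import Mathlib
import Pool.Agent.X329.Dmod.Bern

/-!
# Counting for the sparse sequence `4 ^ j`
-/

set_option autoImplicit false

namespace Pool.Agent.X329.Dmod

variable (p : ℕ) [hp : Fact p.Prime]

theorem monoF : StrictMono fun j : ℕ => 4 ^ j := pow_right_strictMono₀ (by norm_num)

theorem ltF : ∀ j : ℕ, (fun j : ℕ => 4 ^ j) j < (fun j : ℕ => 4 ^ j + 1) j := fun _ =>
  Nat.lt_succ_self _

/-- The exponents for the sequence `4 ^ j`. -/
abbrev ex (s : ℕ) : Finset ℕ := exps p (fun j => 4 ^ j) (fun j => 4 ^ j + 1) s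

theorem mem_ex {s x : ℕ} : x ∈ ex p s ↔ x ≤ s ∨ ∃ j c, c + p ^ 4 ^ j ≤ s ∧
    x = c + p ^ (4 ^ j + 1) := by
  rw [ex, exps, Finset.mem_union, Finset.mem_range, Finset.mem_biUnion, Nat.lt_succ_iff]
  refine or_congr Iff.rfl ⟨?_, ?_⟩
  · rintro ⟨j, -, hj⟩
    obtain ⟨c, hc, rfl⟩ := Finset.mem_image.1 hj
    exact ⟨j, c, (Finset.mem_filter.1 hc).2, rfl⟩
  · rintro ⟨j, c, h, rfl⟩
    have := lt_pow p monoF j
    refine ⟨j, Finset.mem_range.2 (by omega), Finset.mem_image.2 ⟨c, ?_, rfl⟩⟩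
    exact Finset.mem_filter.2 ⟨Finset.mem_range.2 (by omega), h⟩

/-- The index of the last block. -/
theorem exists_block {s : ℕ} (hs : p ≤ s) : ∃ J, p ^ 4 ^ J ≤ s ∧ s < p ^ 4 ^ (J + 1) := by
  have hex : ∃ n, s < p ^ 4 ^ n := ⟨s, (lt_pow p monoF s)⟩
  classical
  have h1 := Nat.find_spec hex
  have h2 : Nat.find hex ≠ 0 := by
    intro h0
    rw [h0] at h1
    simp at h1
    omega
  refine ⟨Nat.find hex - 1, ?_, ?_⟩
  · exact not_lt.1 (Nat.find_min hex (by omega))
  · rwa [Nat.sub_add_cancel (by omega)]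

theorem pow_le_of_lt {s J j : ℕ} (hs : s < p ^ 4 ^ (J + 1)) (hj : p ^ 4 ^ j ≤ s) : j ≤ J := by
  by_contra h
  have h1 : 4 ^ (J + 1) ≤ 4 ^ j := Nat.pow_le_pow_right (by norm_num) (by omega)
  have h2 : p ^ 4 ^ (J + 1) ≤ p ^ 4 ^ j := Nat.pow_le_pow_right hp.out.pos h1
  omega

/-- The earlier blocks contribute few exponents. -/
theorem prev_block (J : ℕ) : ∃ r, (∀ j, j < J → p ^ (4 ^ j + 1) ≤ r) ∧ r ^ 2 ≤ p ^ 4 ^ J := by
  rcases Nat.eq_zero_or_pos J with rfl | hJ
  · exact ⟨0, fun j hj => absurd hj (Nat.not_lt_zero _), by simp⟩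
  · obtain ⟨I, rfl⟩ : ∃ I, J = I + 1 := ⟨J - 1, by omega⟩
    refine ⟨p ^ (4 ^ I + 1), ?_, ?_⟩
    · intro j hj
      apply Nat.pow_le_pow_right hp.out.pos
      have : 4 ^ j ≤ 4 ^ I := Nat.pow_le_pow_right (by norm_num) (by omega)
      omega
    · rw [← pow_mul]
      apply Nat.pow_le_pow_right hp.out.pos
      have h1 : 1 ≤ 4 ^ I := Nat.one_le_pow _ _ (by norm_num)
      rw [pow_succ]
      omega

/-- The upper bound for the dimensions. -/
theorem upper {s : ℕ} (hs : p ≤ s) : ∃ r, r ^ 2 ≤ s ∧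
    p * ((ex p s).card + (s + 1)) ≤ (3 * p - 1) * s + p * r + 3 * p := by
  obtain ⟨J, h1, h2⟩ := exists_block p hs
  obtain ⟨r, hr, hr2⟩ := prev_block p J
  refine ⟨r, hr2.trans h1, ?_⟩
  have hp2 := hp.out.two_le
  have hpow : p ^ (4 ^ J + 1) = p * p ^ 4 ^ J := by rw [pow_succ]; ring
  have h3 : ∀ x ∈ ex p s, x ≤ s + r ∨
      (p ^ (4 ^ J + 1) ≤ x ∧ x + p ^ 4 ^ J ≤ p ^ (4 ^ J + 1) + s) := by
    intro x hx
    rcases (mem_ex p).1 hx with h | ⟨j, c, h, rfl⟩
    · left
      omega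
    · have hj := pow_le_of_lt p h2 (le_trans (Nat.le_add_left _ _) h)
      rcases Nat.lt_or_ge j J with hlt | hge
      · left
        have := hr j hlt
        omega
      · have : j = J := le_antisymm hj hge
        subst this
        right
        omega
  have hcard1 : (ex p s).card ≤ (s + r + 1) + (s + 1 - p ^ 4 ^ J) := by
    have hsub : ex p s ⊆ Finset.range (s + r + 1) ∪
        (Finset.range (s + 1 - p ^ 4 ^ J)).image fun c => c + p ^ (4 ^ J + 1) := by
      intro x hx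
      rw [Finset.mem_union, Finset.mem_range, Finset.mem_image]
      rcases h3 x hx with h | ⟨h, h'⟩
      · left
        omega
      · right
        exact ⟨x - p ^ (4 ^ J + 1), Finset.mem_range.2 (by omega), by omega⟩
    refine (Finset.card_le_card hsub).trans ((Finset.card_union_le _ _).trans ?_)
    rw [Finset.card_range]
    exact Nat.add_le_add_left (Finset.card_image_le.trans (by rw [Finset.card_range])) _
  have e1 : (3 * p - 1) * s + s = 3 * p * s := by
    have : 3 * p - 1 + 1 = 3 * p := by omega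
    calc (3 * p - 1) * s + s = (3 * p - 1 + 1) * s := by ring
      _ = 3 * p * s := by rw [this]
  rcases Nat.lt_or_ge s (p ^ (4 ^ J + 1)) with hA | hB
  · have h4 : p * (ex p s).card ≤ p * ((s + r + 1) + (s + 1 - p ^ 4 ^ J)) :=
      Nat.mul_le_mul_left _ hcard1
    have h5 : p * ((s + r + 1) + (s + 1 - p ^ 4 ^ J)) + p * p ^ 4 ^ J =
        p * ((s + r + 1) + (s + 1)) := by
      rw [← mul_add]
      congr 1
      omega
    have h6 : p * ((ex p s).card + (s + 1)) = p * (ex p s).card + p * (s + 1) := by ring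
    have h7 : p * ((s + r + 1) + (s + 1)) = 2 * p * s + p * r + 2 * p := by ring
    have h8 : p * (s + 1) = p * s + p := by ring
    have h9 : 3 * p * s = 2 * p * s + p * s := by ring
    omega
  · have hcard2 : (ex p s).card ≤ s + r + (p ^ (4 ^ J + 1) - p ^ 4 ^ J) + 1 := by
      have hsub : ex p s ⊆ Finset.range (s + r + (p ^ (4 ^ J + 1) - p ^ 4 ^ J) + 1) := by
        intro x hx
        rw [Finset.mem_range]
        rcases h3 x hx with h | ⟨h, h'⟩
        · omega
        · omega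
      refine (Finset.card_le_card hsub).trans ?_
      rw [Finset.card_range]
    have h4 : p * (ex p s).card ≤ p * (s + r + (p ^ (4 ^ J + 1) - p ^ 4 ^ J) + 1) :=
      Nat.mul_le_mul_left _ hcard2
    have h5 : p * (s + r + (p ^ (4 ^ J + 1) - p ^ 4 ^ J) + 1) =
        p * s + p * r + p * (p ^ (4 ^ J + 1) - p ^ 4 ^ J) + p := by ring
    have h6 : p * (p ^ (4 ^ J + 1) - p ^ 4 ^ J) + p ^ (4 ^ J + 1) = p * p ^ (4 ^ J + 1) := by
      rw [Nat.mul_sub, ← hpow]
      have : p ^ (4 ^ J + 1) ≤ p * p ^ (4 ^ J + 1) := Nat.le_mul_of_pos_left _ hp.out.pos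
      omega
    have h7 : (p - 1) * p ^ (4 ^ J + 1) ≤ (p - 1) * s := Nat.mul_le_mul_left _ hB
    have h8 : (p - 1) * p ^ (4 ^ J + 1) + p ^ (4 ^ J + 1) = p * p ^ (4 ^ J + 1) := by
      have : p - 1 + 1 = p := by omega
      calc (p - 1) * p ^ (4 ^ J + 1) + p ^ (4 ^ J + 1) = (p - 1 + 1) * p ^ (4 ^ J + 1) := by ring
        _ = _ := by rw [this]
    have h9 : (p - 1) * s + s = p * s := by
      have : p - 1 + 1 = p := by omega
      calc (p - 1) * s + s = (p - 1 + 1) * s := by ring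
        _ = _ := by rw [this]
    have h10 : p * ((ex p s).card + (s + 1)) = p * (ex p s).card + p * s + p := by ring
    have h11 : 3 * p * s = p * s + p * s + p * s := by ring
    omega

/-- The lower bound for infinitely many dimensions. -/
theorem lower (J : ℕ) : (3 * p - 1) * (p ^ (4 ^ J + 1) - 1) ≤
    p * ((ex p (p ^ (4 ^ J + 1) - 1)).card + (p ^ (4 ^ J + 1) - 1 + 1)) := by
  have hp2 := hp.out.two_le
  have hpow : p ^ (4 ^ J + 1) = p * p ^ 4 ^ J := by rw [pow_succ]; ring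
  have hpos : 1 ≤ p ^ 4 ^ J := pow_pos hp.out.pos _
  have hle : 2 * p ^ 4 ^ J ≤ p ^ (4 ^ J + 1) := by
    rw [hpow]
    exact Nat.mul_le_mul_right _ hp2
  set s := p ^ (4 ^ J + 1) - 1 with hs
  have hcard : (s + 1) + (s + 1 - p ^ 4 ^ J) ≤ (ex p s).card := by
    have hsub : Finset.range (s + 1) ∪
        (Finset.range (s + 1 - p ^ 4 ^ J)).image (fun c => c + p ^ (4 ^ J + 1)) ⊆ ex p s := by
      intro x hx
      rw [Finset.mem_union, Finset.mem_range, Finset.mem_image] at hx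
      rw [mem_ex]
      rcases hx with h | ⟨c, hc, rfl⟩
      · left
        omega
      · right
        rw [Finset.mem_range] at hc
        exact ⟨J, c, by omega, rfl⟩
    have hdisj : Disjoint (Finset.range (s + 1))
        ((Finset.range (s + 1 - p ^ 4 ^ J)).image (fun c => c + p ^ (4 ^ J + 1))) := by
      rw [Finset.disjoint_left]
      intro x hx hx'
      rw [Finset.mem_range] at hx
      obtain ⟨c, -, rfl⟩ := Finset.mem_image.1 hx'
      omega
    refine le_trans ?_ (Finset.card_le_card hsub)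
    rw [Finset.card_union_of_disjoint hdisj, Finset.card_range,
      Finset.card_image_of_injective _ (add_left_injective _), Finset.card_range]
  have h4 : p * ((s + 1) + (s + 1 - p ^ 4 ^ J)) ≤ p * (ex p s).card := Nat.mul_le_mul_left _ hcard
  have h5 : p * ((s + 1) + (s + 1 - p ^ 4 ^ J)) + p * p ^ 4 ^ J = p * ((s + 1) + (s + 1)) := by
    rw [← mul_add]
    congr 1
    omega
  have e1 : (3 * p - 1) * s + s = 3 * p * s := by
    have : 3 * p - 1 + 1 = 3 * p := by omega
    calc (3 * p - 1) * s + s = (3 * p - 1 + 1) * s := by ring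
      _ = 3 * p * s := by rw [this]
  have h6 : p * ((ex p s).card + (s + 1)) = p * (ex p s).card + p * s + p := by ring
  have h7 : p * ((s + 1) + (s + 1)) = 2 * (p * s) + 2 * p := by ring
  have h8 : 3 * p * s = 3 * (p * s) := by ring
  omega

/-- The upper bound for infinitely many dimensions. -/
theorem upper' (J : ℕ) : ∃ r, r ^ 2 ≤ p ^ 4 ^ J ∧
    (ex p (p ^ 4 ^ J - 1)).card + (p ^ 4 ^ J - 1 + 1) ≤ 2 * (p ^ 4 ^ J - 1) + r + 2 := by
  obtain ⟨r, hr, hr2⟩ := prev_block p J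
  refine ⟨r, hr2, ?_⟩
  have hpos : 1 ≤ p ^ 4 ^ J := pow_pos hp.out.pos _
  set s := p ^ 4 ^ J - 1 with hs
  have hsub : ex p s ⊆ Finset.range (s + r + 1) := by
    intro x hx
    rw [Finset.mem_range]
    rcases (mem_ex p).1 hx with h | ⟨j, c, h, rfl⟩
    · omega
    · have hj : j < J := by
        by_contra hcon
        have h1 : 4 ^ J ≤ 4 ^ j := Nat.pow_le_pow_right (by norm_num) (by omega)
        have h2 : p ^ 4 ^ J ≤ p ^ 4 ^ j := Nat.pow_le_pow_right hp.out.pos h1
        omega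
      have := hr j hj
      omega
  have := Finset.card_le_card hsub
  rw [Finset.card_range] at this
  omega

end Pool.Agent.X329.Dmod
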