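import Mathlib
import Pool.Agent.X329.Dmod.Count

/-!
# The limit superior of the dimensions
-/

set_option autoImplicit false
set_option linter.unusedSectionVars false

namespace Pool.Agent.X329.Dmod

open Filter Topology

variable (p : ℕ) [hp : Fact p.Prime]

/-- The quotients of the dimensions. -/
noncomputable def quo (s : ℕ) : ℝ := (((ex p s).card + (s + 1) : ℕ) : ℝ) / s

theorem quo_nonneg (s : ℕ) : 0 ≤ quo p s := div_nonneg (Nat.cast_nonneg _) (Nat.cast_nonneg _)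

theorem tendsto_aux : Tendsto (fun s : ℕ => (Real.sqrt s)⁻¹ + 3 * ((s : ℝ))⁻¹) atTop (𝓝 0) := by
  have h1 : Tendsto (fun s : ℕ => (s : ℝ)) atTop atTop := tendsto_natCast_atTop_atTop
  have h2 : Tendsto (fun s : ℕ => Real.sqrt s) atTop atTop := Real.tendsto_sqrt_atTop.comp h1
  have h3 := h2.inv_tendsto_atTop
  have h4 := h1.inv_tendsto_atTop.const_mul 3
  simpa using h3.add h4

theorem sqrt_bound {r s : ℕ} (hs : 0 < s) (h : r ^ 2 ≤ s) : (r : ℝ) / s ≤ (Real.sqrt s)⁻¹ := by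
  have hs' : (0 : ℝ) < s := Nat.cast_pos.2 hs
  have h1 : (r : ℝ) ≤ Real.sqrt s := by
    apply Real.le_sqrt_of_sq_le
    exact_mod_cast h
  calc (r : ℝ) / s ≤ Real.sqrt s / s := by gcongr
    _ = (Real.sqrt s)⁻¹ := by rw [Real.sqrt_div_self]

theorem quo_le {s : ℕ} (hs : p ≤ s) :
    quo p s ≤ (3 - 1 / p) + ((Real.sqrt s)⁻¹ + 3 * ((s : ℝ))⁻¹) := by
  obtain ⟨r, hr, h⟩ := upper p hs
  have hp0 : (0 : ℝ) < p := Nat.cast_pos.2 hp.out.pos
  have hs0 : 0 < s := lt_of_lt_of_le hp.out.pos hs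
  have hs' : (0 : ℝ) < s := Nat.cast_pos.2 hs0
  have h1 : (p : ℝ) * (((ex p s).card + (s + 1) : ℕ) : ℝ) ≤ (3 * p - 1) * s + p * r + 3 * p := by
    have h2 : (p : ℝ) * (((ex p s).card + (s + 1) : ℕ) : ℝ) ≤
        ((3 * p - 1 : ℕ) : ℝ) * s + p * r + 3 * p := by exact_mod_cast h
    have h3 : ((3 * p - 1 : ℕ) : ℝ) = 3 * p - 1 := by
      have := hp.out.two_le
      push_cast [Nat.cast_sub (show 1 ≤ 3 * p by omega)]
      ring
    rw [h3] at h2
    exact h2
  have h4 := sqrt_bound hs0 hr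
  have h5 : quo p s ≤ (3 - 1 / p) + (r : ℝ) / s + 3 * ((s : ℝ))⁻¹ := by
    rw [quo, div_le_iff₀ hs']
    have h6 : ((3 - 1 / p) + (r : ℝ) / s + 3 * ((s : ℝ))⁻¹) * s =
        ((3 * p - 1) * s + p * r + 3 * p) / p := by
      field_simp
    rw [h6, le_div_iff₀ hp0]
    linarith
  linarith

theorem isBounded_le : IsBoundedUnder (· ≤ ·) atTop (quo p) := by
  have h : Tendsto (fun s : ℕ => (3 - 1 / (p : ℝ)) + ((Real.sqrt s)⁻¹ + 3 * ((s : ℝ))⁻¹)) atTop
      (𝓝 ((3 - 1 / (p : ℝ)) + 0)) := tendsto_aux.const_add _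
  refine h.isBoundedUnder_le.mono_le ?_
  filter_upwards [eventually_ge_atTop p] with s hs
  exact quo_le p hs

theorem limsup_quo : limsup (quo p) atTop = 3 - 1 / p := by
  have h : Tendsto (fun s : ℕ => (3 - 1 / (p : ℝ)) + ((Real.sqrt s)⁻¹ + 3 * ((s : ℝ))⁻¹)) atTop
      (𝓝 ((3 - 1 / (p : ℝ)) + 0)) := tendsto_aux.const_add _
  apply le_antisymm
  · have h1 : limsup (quo p) atTop ≤
        limsup (fun s : ℕ => (3 - 1 / (p : ℝ)) + ((Real.sqrt s)⁻¹ + 3 * ((s : ℝ))⁻¹)) atTop := by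
      apply limsup_le_limsup
      · filter_upwards [eventually_ge_atTop p] with s hs
        exact quo_le p hs
      · exact (isBoundedUnder_of ⟨0, fun s => quo_nonneg p s⟩ :
          IsBoundedUnder (· ≥ ·) atTop (quo p)).isCoboundedUnder_le
      · exact h.isBoundedUnder_le
    rw [h.limsup_eq, add_zero] at h1
    exact h1
  · apply le_limsup_of_frequently_le _ (isBounded_le p)
    rw [frequently_atTop]
    intro n
    refine ⟨p ^ (4 ^ n + 1) - 1, ?_, ?_⟩
    · have h1 := lt_pow p monoF n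
      have h2 : p ^ 4 ^ n ≤ p ^ (4 ^ n + 1) := Nat.pow_le_pow_right hp.out.pos (Nat.le_succ _)
      change n ≤ _
      change n < p ^ 4 ^ n at h1
      omega
    · have h1 := lower p n
      have h2 : 2 ≤ p ^ (4 ^ n + 1) := by
        calc 2 ≤ p := hp.out.two_le
          _ = p ^ 1 := (pow_one p).symm
          _ ≤ p ^ (4 ^ n + 1) := Nat.pow_le_pow_right hp.out.pos (Nat.le_add_left 1 _)
      set s := p ^ (4 ^ n + 1) - 1 with hs
      have hs0 : 0 < s := by omega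
      have hs' : (0 : ℝ) < s := Nat.cast_pos.2 hs0
      have hp0 : (0 : ℝ) < p := Nat.cast_pos.2 hp.out.pos
      have h3 : ((3 * p - 1 : ℕ) : ℝ) = 3 * p - 1 := by
        have := hp.out.two_le
        push_cast [Nat.cast_sub (show 1 ≤ 3 * p by omega)]
        ring
      have h4 : (3 * (p : ℝ) - 1) * s ≤ p * (((ex p s).card + (s + 1) : ℕ) : ℝ) := by
        have h5 : (((3 * p - 1) * s : ℕ) : ℝ) ≤ ((p * ((ex p s).card + (s + 1)) : ℕ) : ℝ) := by
          exact_mod_cast h1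
        rw [Nat.cast_mul, Nat.cast_mul, h3] at h5
        exact h5
      rw [quo, le_div_iff₀ hs']
      have h6 : (3 - 1 / (p : ℝ)) * s = ((3 * p - 1) * s) / p := by
        field_simp
      rw [h6, div_le_iff₀ hp0]
      linarith

theorem three_sub_gt : (2 : ℝ) < 3 - 1 / p := by
  have h : (2 : ℝ) ≤ p := by exact_mod_cast hp.out.two_le
  have : 1 / (p : ℝ) ≤ 1 / 2 := one_div_le_one_div_of_le (by norm_num) h
  linarith

theorem three_sub_ne (z : ℤ) : (3 - 1 / p : ℝ) ≠ z := by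
  intro h
  have h1 := three_sub_gt p
  have h2 : 0 < 1 / (p : ℝ) := by
    have : (0 : ℝ) < p := Nat.cast_pos.2 hp.out.pos
    positivity
  rw [h] at h1
  have h3 : (z : ℝ) < 3 := by linarith
  have h4 : (2 : ℤ) < z := by exact_mod_cast h1
  have h5 : z < 3 := by exact_mod_cast h3
  omega

theorem tendsto_aux2 : Tendsto (fun s : ℕ => 2 + 2 * ((Real.sqrt s)⁻¹ + 3 * ((s : ℝ))⁻¹)) atTop
    (𝓝 2) := by
  simpa using (tendsto_aux.const_mul 2).const_add 2

theorem not_tendsto : ¬ ∃ L : ℝ, Tendsto (quo p) atTop (𝓝 L) := by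
  rintro ⟨L, hL⟩
  have h1 : L = 3 - 1 / p := by
    rw [← limsup_quo p]
    exact hL.limsup_eq.symm
  have hsub : Tendsto (fun J : ℕ => p ^ 4 ^ J - 1) atTop atTop := by
    apply tendsto_atTop_mono (f := fun J : ℕ => J)
    · intro J
      have h1 : J < p ^ 4 ^ J := lt_pow p monoF J
      omega
    · exact tendsto_id
  have h2 := hL.comp hsub
  have h3 := tendsto_aux2.comp hsub
  have h4 : L ≤ 2 := by
    apply le_of_tendsto_of_tendsto h2 h3
    filter_upwards [eventually_ge_atTop 1] with J hJ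
    change quo p (p ^ 4 ^ J - 1) ≤ 2 + 2 * ((Real.sqrt ((p ^ 4 ^ J - 1 : ℕ) : ℝ))⁻¹ +
      3 * (((p ^ 4 ^ J - 1 : ℕ) : ℝ))⁻¹)
    obtain ⟨r, hr, h⟩ := upper' p J
    have h5 : 2 ≤ p ^ 4 ^ J := by
      calc 2 ≤ p := hp.out.two_le
        _ = p ^ 1 := (pow_one p).symm
        _ ≤ p ^ 4 ^ J := Nat.pow_le_pow_right hp.out.pos (Nat.one_le_pow _ _ (by norm_num))
    set s := p ^ 4 ^ J - 1 with hs
    have hs0 : 0 < s := by omega
    have hs' : (0 : ℝ) < s := Nat.cast_pos.2 hs0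
    have hr2 : r ^ 2 ≤ 4 * s := by omega
    have hr3 : (r : ℝ) ≤ 2 * Real.sqrt s := by
      have h6 : (r : ℝ) ^ 2 ≤ (2 * Real.sqrt s) ^ 2 := by
        rw [mul_pow, Real.sq_sqrt hs'.le]
        have : ((r ^ 2 : ℕ) : ℝ) ≤ ((4 * s : ℕ) : ℝ) := by exact_mod_cast hr2
        push_cast at this
        linarith
      exact le_of_sq_le_sq h6 (by positivity)
    have h7 : (r : ℝ) / s ≤ 2 * (Real.sqrt s)⁻¹ := by
      calc (r : ℝ) / s ≤ (2 * Real.sqrt s) / s := by gcongr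
        _ = 2 * (Real.sqrt s / s) := by ring
        _ = 2 * (Real.sqrt s)⁻¹ := by rw [Real.sqrt_div_self]
    have h8 : quo p s ≤ 2 + (r : ℝ) / s + 6 * ((s : ℝ))⁻¹ := by
      rw [quo, div_le_iff₀ hs']
      have h9 : (2 + (r : ℝ) / s + 6 * ((s : ℝ))⁻¹) * s = 2 * s + r + 6 := by
        field_simp
      rw [h9]
      have h10 : (((ex p s).card + (s + 1) : ℕ) : ℝ) ≤ ((2 * s + r + 2 : ℕ) : ℝ) := by
        exact_mod_cast h
      push_cast at h10 ⊢
      linarith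
    linarith
  have h5 := three_sub_gt p
  linarith

end Pool.Agent.X329.Dmod
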