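import Mathlib
import Pool.Agent.X329.Dmod.Lim

/-!
# The multiplicity of a holonomic module
-/

set_option autoImplicit false

namespace Pool.Agent.X329.Dmod

open Polynomial Filter Topology

universe u

section
variable (k : Type u) [Field k] {M : Type*} [AddCommGroup M] [Module k M] [Module (DOp k) M]
  [IsScalarTower k (DOp k) M]

/-- The number `e (M) = limsup dim_k (F_i M_0) / i`, where `M_0` is the `k`-span of the finite set
`S` of generators of the `𝒟`-module `M`. -/
noncomputable def mult (S : Set M) : ℝ :=
  limsup (fun i : ℕ => (Module.finrank k (stage k S i) : ℝ) / i) atTop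

end

variable (k : Type u) [Field k] (p : ℕ) [hp : Fact p.Prime] [CharP k p]

/-- The extension of `k[x]` by `k[x]` given by the power series
`∑_j x ^ (p ^ (4 ^ j) + p ^ (4 ^ j + 1))`. -/
noncomputable abbrev MF : Submodule (DOp k) (QQ k) := Ext (adm (k := k) p monoF ltF)

/-- The generators. -/
noncomputable abbrev SF : Set (MF k p) := gens (adm (k := k) p monoF ltF)

theorem rank_F (s : ℕ) : Module.rank k (stage k (SF k p) s) =
    (((ex p s).card + (s + 1) : ℕ) : Cardinal) :=
  rank_stage p monoF ltF s

theorem finrank_F (s : ℕ) : Module.finrank k (stage k (SF k p) s) = (ex p s).card + (s + 1) := by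
  rw [Module.finrank, rank_F, Cardinal.toNat_natCast]

theorem bound_F (s : ℕ) (hs : 1 ≤ s) : (ex p s).card + (s + 1) ≤ 7 * s := by
  rcases Nat.lt_or_ge s p with h | h
  · have hsub : ex p s ⊆ Finset.range (s + 1) := by
      intro x hx
      rw [Finset.mem_range]
      rcases (mem_ex p).1 hx with h1 | ⟨j, c, h1, -⟩
      · omega
      · have : p ≤ p ^ 4 ^ j := by
          calc p = p ^ 1 := (pow_one p).symm
            _ ≤ p ^ 4 ^ j := Nat.pow_le_pow_right hp.out.pos (Nat.one_le_pow _ _ (by norm_num))
        omega
    have := Finset.card_le_card hsub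
    rw [Finset.card_range] at this
    omega
  · obtain ⟨r, hr, h1⟩ := upper p h
    have h2 : r ≤ s := by nlinarith
    have h3 : p * ((ex p s).card + (s + 1)) ≤ p * (7 * s) := by
      have h4 : (3 * p - 1) * s ≤ 3 * p * s := Nat.mul_le_mul_right _ (Nat.sub_le _ _)
      have h5 : p * r ≤ p * s := Nat.mul_le_mul_left _ h2
      have h6 : 3 * p ≤ 3 * (p * s) := by
        have : p * 1 ≤ p * s := Nat.mul_le_mul_left _ hs
        omega
      have h7 : p * (7 * s) = 7 * (p * s) := by ring
      have h8 : 3 * p * s = 3 * (p * s) := by ring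
      omega
    exact Nat.le_of_mul_le_mul_left h3 hp.out.pos

theorem holonomic_F : IsHolonomic k (MF k p) := by
  refine ⟨stage k (SF k p), stage_filtration _ (exhaust p monoF ltF), 7, fun i hi => ?_⟩
  rw [rank_F]
  exact_mod_cast bound_F p i hi

theorem quo_F : (fun i : ℕ => (Module.finrank k (stage k (SF k p) i) : ℝ) / i) = quo p := by
  funext i
  rw [finrank_F, quo]

end Pool.Agent.X329.Dmod
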