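import Mathlib
import Pool.Agent.X329.Dmod.Seq

/-!
# A non-holonomic extension of holonomic modules
-/

set_option autoImplicit false

namespace Pool.Agent.X329.Dmod

open Polynomial

universe u

variable (k : Type u) [Field k] (p : ℕ) [hp : Fact p.Prime] [CharP k p]

theorem monoA : StrictMono fun j : ℕ => j + 1 := fun _ _ h => Nat.succ_lt_succ h

theorem ltAB : ∀ j : ℕ, (fun j : ℕ => j + 1) j < (fun j : ℕ => 2 * j + 2) j := fun j => by
  change j + 1 < 2 * j + 2
  omega

theorem card_exps (L : ℕ) (hL : 1 ≤ L) :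
    (L - 1) * p ^ (2 * L - 1) ≤
      (exps p (fun j => j + 1) (fun j => 2 * j + 2) (p * p ^ (2 * L - 1))).card := by
  have h1 : (Finset.Ico L (2 * L - 1) ×ˢ Finset.range (p ^ (2 * L - 1))).card =
      (L - 1) * p ^ (2 * L - 1) := by
    rw [Finset.card_product, Nat.card_Ico, Finset.card_range]
    congr 1
    omega
  rw [← h1]
  apply Finset.card_le_card_of_injOn (fun x => x.2 + p ^ (2 * x.1 + 2))
  · rintro ⟨j, c⟩ hx
    rw [Finset.mem_coe, Finset.mem_product, Finset.mem_Ico, Finset.mem_range] at hx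
    obtain ⟨⟨hj1, hj2⟩, hc⟩ := hx
    change L ≤ j at hj1
    change j < 2 * L - 1 at hj2
    change c < p ^ (2 * L - 1) at hc
    rw [Finset.mem_coe, exps]
    apply Finset.mem_union_right
    have h2 : p ^ (j + 1) ≤ p ^ (2 * L - 1) := Nat.pow_le_pow_right hp.out.pos (by omega)
    have h3 : 2 * p ^ (2 * L - 1) ≤ p * p ^ (2 * L - 1) :=
      Nat.mul_le_mul_right _ hp.out.two_le
    have h4 : j < p ^ (j + 1) := lt_pow p monoA j
    rw [Finset.mem_biUnion]
    refine ⟨j, Finset.mem_range.2 (by omega), Finset.mem_image.2 ⟨c, ?_, rfl⟩⟩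
    exact Finset.mem_filter.2 ⟨Finset.mem_range.2 (by omega), by omega⟩
  · have key : ∀ j c j' c' : ℕ, L ≤ j → c < p ^ (2 * L - 1) → j < j' →
        c + p ^ (2 * j + 2) ≠ c' + p ^ (2 * j' + 2) := by
      intro j c j' c' hj hc hjj h
      have h2 : p ^ (2 * j + 3) ≤ p ^ (2 * j' + 2) := Nat.pow_le_pow_right hp.out.pos (by omega)
      have h3 : p ^ (2 * j + 3) = p * p ^ (2 * j + 2) := by ring
      have h4 : 2 * p ^ (2 * j + 2) ≤ p * p ^ (2 * j + 2) := Nat.mul_le_mul_right _ hp.out.two_le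
      have h5 : p ^ (2 * L - 1) ≤ p ^ (2 * j + 2) := Nat.pow_le_pow_right hp.out.pos (by omega)
      omega
    rintro ⟨j, c⟩ hx ⟨j', c'⟩ hx' h
    rw [Finset.mem_coe, Finset.mem_product, Finset.mem_Ico, Finset.mem_range] at hx hx'
    change c + p ^ (2 * j + 2) = c' + p ^ (2 * j' + 2) at h
    rcases lt_trichotomy j j' with hlt | heq | hgt
    · exact absurd h (key j c j' c' hx.1.1 hx.2 hlt)
    · subst heq
      ext
      · rfl
      · change c = c'
        omega
    · exact absurd h.symm (key j' c' j c hx'.1.1 hx'.2 hgt)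

/-- The extension. -/
noncomputable abbrev MM : Submodule (DOp k) (QQ k) := Ext (adm (k := k) p monoA ltAB)

theorem not_holonomic : ¬ IsHolonomic k (MM k p) := by
  rintro ⟨G, hG, C, hC⟩
  obtain ⟨i₀, h₀⟩ := hG.exhaust (E (adm (k := k) p monoA ltAB) (1, 0))
  obtain ⟨i₁, h₁⟩ := hG.exhaust (E (adm (k := k) p monoA ltAB) (0, 1))
  set i := max i₀ i₁ with hi
  have h0 := hG.mono (le_max_left i₀ i₁) h₀
  have h1 := hG.mono (le_max_right i₀ i₁) h₁
  have hstage : ∀ s, stage k (gens (adm (k := k) p monoA ltAB)) s ≤ G (s + i) := by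
    intro s
    apply Submodule.span_le.2
    rintro _ ⟨θ, hθ, m, hm, rfl⟩
    apply hG.smul_mem s i θ hθ
    rcases hm with rfl | rfl
    · exact h0
    · exact h1
  set L := C * p + C * i + 2 with hL
  set m := p ^ (2 * L - 1) with hm
  have hmpos : 1 ≤ m := pow_pos hp.out.pos _
  have hppos : 1 ≤ p := hp.out.pos
  have hs : 1 ≤ p * m + i := by
    have : 1 ≤ p * m := Nat.mul_pos hppos hmpos
    omega
  have h2 := (Submodule.rank_mono (hstage (p * m))).trans (hC (p * m + i) hs)
  rw [rank_stage p monoA ltAB] at h2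
  have h3 : (exps p (fun j => j + 1) (fun j => 2 * j + 2) (p * m)).card + (p * m + 1) ≤
      C * (p * m + i) := by exact_mod_cast h2
  have h4 := card_exps p L (by omega)
  rw [← hm] at h4
  have h5 : (C * p + C * i + 1) * m ≤ C * (p * m + i) := by
    have : L - 1 = C * p + C * i + 1 := by omega
    rw [this] at h4
    omega
  have h6 : C * i ≤ C * i * m := Nat.le_mul_of_pos_right _ hmpos
  have h7 : (C * p + C * i + 1) * m = C * (p * m) + C * i * m + m := by ring
  have h8 : C * (p * m + i) = C * (p * m) + C * i := by ring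
  omega

end Pool.Agent.X329.Dmod
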